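import Pool.Agent.Helper96.ME.PTF
import Pool.Agent.Helper96.MP.MAIN2

/-!
# MP_bde085_nt, block E: module MAINE
-/

set_option autoImplicit false

namespace Pool.Agent.Helper96.ME

open Pool.Agent.Helper96.MP
open scoped MatrixGroups

theorem maine_ne {p q : ℤ} (h : IsCoprime p q) : (p ≠ 0 ∨ q ≠ 0) := by
  by_contra hcon
  push Not at hcon
  rw [hcon.1, hcon.2, isCoprime_zero_left] at h
  exact not_isUnit_zero h

/-- a matrix with given columns -/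
theorem maine_mat (p x q y : ℤ) (h : p * y - x * q = 1) :
    ∃ g : SL(2, ℤ), g 0 0 = p ∧ g 0 1 = x ∧ g 1 0 = q ∧ g 1 1 = y :=
  ⟨⟨!![p, x; q, y], by rw [Matrix.det_fin_two_of]; linarith⟩, rfl, rfl, rfl, rfl⟩

/-- the values of a potential of a newform are small compared with one of them -/
theorem maine_line (hFPATH : ST_FPATH) (hCONN : ST_CONN) (hLFT : ST_LFT) (hPDIM : ST_PDIM)
    (hBWD : ST_BWD) (M Q : ℕ) (a : ℕ → ℤ) (hM : 1 ≤ M) (hQ : 1 ≤ Q) (hQM : Nat.Coprime Q M)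
    (hnf : Newform (Q * M ^ 2) a) (ε : ℤ) (hε : ε = 1 ∨ ε = -1)
    (D : ℤ → ℤ → ℝ) (hD : PT (Q * M ^ 2) a ε D) (R : ℝ) (hR0 : 0 ≤ R)
    (w : SL(2, ZMod M) → PN Q → ℤ) (hw0 : ∃ g z, w g z ≠ 0)
    (hwE : RW M Q a ε (fun g z => (w g z : ℝ))) (hwR : ∀ g z, |(w g z : ℝ)| ≤ R)
    (p1 r1 : ℤ) (hr1 : (M : ℤ) ∣ r1) (hcop1 : IsCoprime p1 r1) (h1 : D p1 r1 - D 1 0 ≠ 0)
    (p r : ℤ) (hr : (M : ℤ) ∣ r) (hcop : IsCoprime p r) :
    |D p r - D 1 0| ≤ |D p1 r1 - D 1 0| * ((1 + Real.logb 2 (1 + |(r : ℝ)|)) * R) := by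
  have hN : 1 ≤ Q * M ^ 2 := Nat.mul_pos hQ (by positivity)
  obtain ⟨C, hC, hCw⟩ := hBWD M Q a ε _ hM hQ hQM hwE
  obtain ⟨C0, hC0, -, huniq⟩ := hPDIM (Q * M ^ 2) a ε hN hnf (by
    rcases hε with h | h
    · left; rw [h]; norm_num
    · right; rw [h]; norm_num)
  obtain ⟨κ1, c1, hκ1⟩ := huniq C hC
  obtain ⟨κ2, c2, hκ2⟩ := huniq D hD
  have hκ2ne : κ2 ≠ 0 := by
    intro h0
    apply h1
    rw [hκ2 p1 r1 (maine_ne hcop1), hκ2 1 0 (by simp), h0]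
    simp
  -- differences
  have hdiff : ∀ x y : ℤ, (x ≠ 0 ∨ y ≠ 0) → C x y - C 1 0 = κ1 / κ2 * (D x y - D 1 0) := by
    intro x y hxy
    rw [hκ1 x y hxy, hκ1 1 0 (by simp), hκ2 x y hxy, hκ2 1 0 (by simp)]
    field_simp
    ring
  set κ := κ1 / κ2 with hκ
  have hMz : (M : ℤ) ≠ 0 := by exact_mod_cast (by omega : M ≠ 0)
  have hκ0 : κ ≠ 0 := by
    intro h0
    obtain ⟨g, z, hgz⟩ := hw0
    obtain ⟨y, hy1, hy2⟩ := (hLFT M Q hM hQ hQM).2 g z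
    have := hCw y
    rw [hy1, hy2] at this
    have e0 : ∀ x y : ℤ, (x ≠ 0 ∨ y ≠ 0) → C x y = C 1 0 := by
      intro x y hxy
      have := hdiff x y hxy
      rw [h0, zero_mul] at this
      linarith
    have hdet := Lib.det1 y
    have n1 : (y 0 0 ≠ 0 ∨ (M : ℤ) * y 1 0 ≠ 0) := by
      by_contra hcon
      push Not at hcon
      have h10 := (mul_eq_zero.mp hcon.2).resolve_left hMz
      rw [hcon.1, h10] at hdet
      simp at hdet
    have n2 : (y 0 1 ≠ 0 ∨ (M : ℤ) * y 1 1 ≠ 0) := by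
      by_contra hcon
      push Not at hcon
      have h10 := (mul_eq_zero.mp hcon.2).resolve_left hMz
      rw [hcon.1, h10] at hdet
      simp at hdet
    rw [e0 _ _ n1, e0 _ _ n2, sub_self] at this
    have h5 : (w g z : ℝ) = 0 := this
    exact hgz (by exact_mod_cast h5)
  -- the potential in the other model
  set C' : ℤ → ℤ → ℝ := fun x y => C x (M * y) with hC'
  have hC'h : Hom0 C' := by
    intro k x y hk
    simp only [hC']
    have := hC.hom k x (M * y) hk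
    rw [← this]
    congr 1
    ring
  have hedge : ∀ x x' y y' : ℤ, x * y' - x' * y = 1 →
      ∃ z : ℤ, C' x y - C' x' y' = z ∧ |(z : ℝ)| ≤ R := by
    intro x x' y y' h
    obtain ⟨g, g00, g01, g10, g11⟩ := maine_mat x x' y y' h
    have := hCw g
    rw [g00, g01, g10, g11] at this
    exact ⟨w (rd M g) (cls Q g), this.symm, hwR _ _⟩
  have hint : ∀ x y : ℤ, (x ≠ 0 ∨ y ≠ 0) → ∃ z : ℤ, C' x y - C' 1 0 = z := by
    intro x y hxy
    have := hCONN ℝ (Int.castAddHom ℝ).range C' hC'h (by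
      intro x x' y y' h
      obtain ⟨z, hz, -⟩ := hedge x x' y y' h
      rw [hz]
      exact ⟨z, rfl⟩) x y hxy
    obtain ⟨z, hz⟩ := this
    exact ⟨z, hz.symm⟩
  obtain ⟨r1', hr1'⟩ := hr1
  obtain ⟨r', hr'⟩ := hr
  have hcop1' : IsCoprime p1 r1' := by
    rw [hr1'] at hcop1
    exact (IsCoprime.of_mul_right_right hcop1)
  have hcop' : IsCoprime p r' := by
    rw [hr'] at hcop
    exact (IsCoprime.of_mul_right_right hcop)
  have hC10 : C' 1 0 = C 1 0 := by simp [hC']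
  have hval1 : C' p1 r1' = C p1 r1 := by simp only [hC']; rw [hr1']
  have hval : C' p r' = C p r := by simp only [hC']; rw [hr']
  have hpath := hFPATH C' R hR0 hC'h (by
    intro x x' y y' h
    obtain ⟨z, hz, hzR⟩ := hedge x x' y y' h
    rw [hz]
    exact hzR) p r' hcop'
  rw [hval, hC10, hdiff p r (maine_ne hcop), abs_mul] at hpath
  obtain ⟨z1, hz1⟩ := hint p1 r1' (maine_ne hcop1')
  rw [hval1, hC10] at hz1
  have hz10 : z1 ≠ 0 := by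
    intro h0
    rw [hdiff p1 r1 (maine_ne hcop1), h0] at hz1
    have : κ * (D p1 r1 - D 1 0) ≠ 0 := mul_ne_zero hκ0 h1
    exact this (by simpa using hz1)
  have hz1' : (1 : ℝ) ≤ |κ| * |D p1 r1 - D 1 0| := by
    rw [← abs_mul, ← hdiff p1 r1 (maine_ne hcop1), hz1]
    have : (1 : ℤ) ≤ |z1| := Int.one_le_abs hz10
    exact_mod_cast this
  have hκp : 0 < |κ| := abs_pos.mpr hκ0
  have hrr : |(r' : ℝ)| ≤ |(r : ℝ)| := by
    rw [hr']
    push_cast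
    rw [abs_mul]
    have : (1 : ℝ) ≤ |(M : ℝ)| := by
      rw [abs_of_nonneg (by positivity)]
      exact_mod_cast hM
    nlinarith [abs_nonneg (r' : ℝ)]
  have hlog : Real.logb 2 (1 + |(r' : ℝ)|) ≤ Real.logb 2 (1 + |(r : ℝ)|) :=
    Real.logb_le_logb_of_le (by norm_num) (by positivity) (by linarith)
  set B := (1 + Real.logb 2 (1 + |(r : ℝ)|)) * R with hB
  have hpath' : |κ| * |D p r - D 1 0| ≤ B := by
    refine hpath.trans ?_
    exact mul_le_mul_of_nonneg_right (by linarith) hR0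
  have hB0 : 0 ≤ B := by
    apply mul_nonneg _ hR0
    have : 0 ≤ Real.logb 2 (1 + |(r : ℝ)|) :=
      Real.logb_nonneg (by norm_num) (by linarith [abs_nonneg (r : ℝ)])
    linarith
  have h3 : |κ| * |D p r - D 1 0| ≤ |κ| * (|D p1 r1 - D 1 0| * B) := by
    calc |κ| * |D p r - D 1 0| ≤ B := hpath'
      _ = 1 * B := (one_mul B).symm
      _ ≤ (|κ| * |D p1 r1 - D 1 0|) * B := mul_le_mul_of_nonneg_right hz1' hB0
      _ = _ := by ring
  exact le_of_mul_le_mul_left h3 hκp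

theorem maine_dvd {M Q : ℕ} {r : ℤ} (h : ((Q * M ^ 2 : ℕ) : ℤ) ∣ r) : (M : ℤ) ∣ r := by
  refine dvd_trans ?_ h
  push_cast
  exact Dvd.intro_left ((Q : ℤ) * M) (by ring)

theorem maine_cop {N : ℕ} {p q r s : ℤ} (h : G0 N p q r s) : IsCoprime p r :=
  ⟨s, -q, by linarith [h.1]⟩

theorem st_MAINE (hTOTE : ST_TOTE) (hFPATH : ST_FPATH) (hCONN : ST_CONN) (hLFT : ST_LFT)
    (hPDIM : ST_PDIM) (hBWD : ST_BWD) (hFLIM : ST_FLIM) (hTF : ST_TF) : ST_MAINE := by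
  obtain ⟨C0, hC0pos, hC0⟩ := hTOTE
  refine ⟨C0 + 2, by linarith, ?_⟩
  intro M Q a hM hsq hQ hQM hnf p1 r1 p2 r2 q1 s1 q2 s2 Ω₁ Ω₂ hg1 hg2 hΩ1 hΩ2 hΩ1im hΩ1re hΩ2im
    hΩ2re hΩ2lt p q r s hg m n hmn
  have hN : 1 ≤ Q * M ^ 2 := Nat.mul_pos hQ (by positivity)
  set R := Real.exp (C0 * psi (Q * M) * Real.log ((Q * M ^ 2 : ℕ) + 1)) with hR
  have hR0 : 0 ≤ R := (Real.exp_pos _).le
  have hFC10 : FC (fun k => (a k : ℂ)) 1 0 = 0 := by simp [FC]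
  obtain ⟨w1, hw10, hw1E, hw1R⟩ := hC0 M Q a 1 hM hsq hQ hQM hnf (Or.inl rfl)
  obtain ⟨w2, hw20, hw2E, hw2R⟩ := hC0 M Q a (-1) hM hsq hQ hQM hnf (Or.inr rfl)
  have hD1 : PT (Q * M ^ 2) a ((1 : ℤ) : ℝ) (fun x y => (FC (fun k => (a k : ℂ)) x y).re) := by
    simpa using pt_re hFLIM hTF _ a hN hnf
  have hD2 : PT (Q * M ^ 2) a ((-1 : ℤ) : ℝ) (fun x y => (FC (fun k => (a k : ℂ)) x y).im) := by
    simpa using pt_im hFLIM hTF _ a hN hnf
  have h11 : (FC (fun k => (a k : ℂ)) p1 r1).re - (FC (fun k => (a k : ℂ)) 1 0).re ≠ 0 := by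
    rw [hFC10, ← hΩ1]
    simpa using ne_of_gt hΩ1re
  have h22 : (FC (fun k => (a k : ℂ)) p2 r2).im - (FC (fun k => (a k : ℂ)) 1 0).im ≠ 0 := by
    rw [hFC10, ← hΩ2]
    simpa using ne_of_gt hΩ2im
  have hre := maine_line hFPATH hCONN hLFT hPDIM hBWD M Q a hM hQ hQM hnf 1 (Or.inl rfl) _ hD1 R hR0
    w1 hw10 hw1E hw1R p1 r1 (maine_dvd hg1.2) (maine_cop hg1) h11 p r (maine_dvd hg.2)
    (maine_cop hg)
  have him := maine_line hFPATH hCONN hLFT hPDIM hBWD M Q a hM hQ hQM hnf (-1) (Or.inr rfl) _ hD2 R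
    hR0 w2 hw20 hw2E hw2R p2 r2 (maine_dvd hg2.2) (maine_cop hg2) h22 p r (maine_dvd hg.2)
    (maine_cop hg)
  simp only [hFC10, Complex.zero_re, Complex.zero_im, sub_zero] at hre him
  rw [← hΩ1, hmn] at hre
  rw [← hΩ2, hmn] at him
  have e1 : ((m : ℂ) * Ω₁ + (n : ℂ) * Ω₂).im = n * Ω₂.im := by
    simp [hΩ1im]
  have e2 : ((m : ℂ) * Ω₁ + (n : ℂ) * Ω₂).re = m * Ω₁.re + n * Ω₂.re := by
    simp
  rw [e1, abs_mul, abs_of_pos hΩ2im] at him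
  rw [e2, abs_of_pos hΩ1re] at hre
  set B := (1 + Real.logb 2 (1 + |(r : ℝ)|)) * R with hB
  have hn : |(n : ℝ)| ≤ B := by
    have : Ω₂.im * |(n : ℝ)| ≤ Ω₂.im * B := by linarith
    exact le_of_mul_le_mul_left this hΩ2im
  have hm : |(m : ℝ)| ≤ 2 * B := by
    have h1 : |(m : ℝ) * Ω₁.re| ≤ Ω₁.re * B + |(n : ℝ) * Ω₂.re| := by
      have : (m : ℝ) * Ω₁.re = ((m : ℝ) * Ω₁.re + n * Ω₂.re) - n * Ω₂.re := by ring
      rw [this]
      refine (abs_sub _ _).trans ?_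
      linarith
    rw [abs_mul, abs_mul, abs_of_pos hΩ1re, abs_of_nonneg hΩ2re] at h1
    have h2 : |(n : ℝ)| * Ω₂.re ≤ B * Ω₁.re :=
      mul_le_mul hn hΩ2lt.le hΩ2re ((abs_nonneg _).trans hn)
    have : Ω₁.re * |(m : ℝ)| ≤ Ω₁.re * (2 * B) := by nlinarith
    exact le_of_mul_le_mul_left this hΩ1re
  have hQM1 : 1 ≤ Q * M := Nat.mul_pos hQ hM
  have hL : Real.log 2 ≤ Real.log ((Q * M ^ 2 : ℕ) + 1) := by
    apply Real.log_le_log (by norm_num)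
    have : (1 : ℝ) ≤ ((Q * M ^ 2 : ℕ) : ℝ) := by exact_mod_cast hN
    linarith
  have hc := main2_const C0 (Real.log ((Q * M ^ 2 : ℕ) + 1)) |(r : ℝ)| (psi (Q * M))
    (main_psi_one _ hQM1) hL (abs_nonneg _)
  rw [← hR, ← hB] at hc
  have hpos : 0 ≤ B := by
    have : 0 ≤ Real.logb 2 (1 + |(r : ℝ)|) :=
      Real.logb_nonneg (by norm_num) (by linarith [abs_nonneg (r : ℝ)])
    positivity
  exact ⟨hm.trans hc, (hn.trans (by linarith)).trans hc⟩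

end Pool.Agent.Helper96.ME
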