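import Pool.Agent.Helper1.MP.PER
import Pool.Agent.Helper11.ME.SPX
import Pool.Agent.Helper11.MP.FCUSP
import Pool.Agent.Helper11.MP.FLIM
import Pool.Agent.Helper11.MP.INJ
import Pool.Agent.Helper11.MP.KPROD
import Pool.Agent.Helper11.MP.QEXP
import Pool.Agent.Helper11.MP.QUNI
import Pool.Agent.Helper17.ME.CAI
import Pool.Agent.Helper17.ME.YSW
import Pool.Agent.Helper18.MP.CSP
import Pool.Agent.Helper21.ME.LBV
import Pool.Agent.Helper21.MP.DIVB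
import Pool.Agent.Helper21.MP.HERM
import Pool.Agent.Helper22.MP.COV
import Pool.Agent.Helper22.MP.FD
import Pool.Agent.Helper22.MP.WT
import Pool.Agent.Helper23.MP.BDRY
import Pool.Agent.Helper26.ME.ADX
import Pool.Agent.Helper26.ME.LFT
import Pool.Agent.Helper27.MP.EQV
import Pool.Agent.Helper30.ME.TOTE
import Pool.Agent.Helper30.MP.FAREY
import Pool.Agent.Helper30.MP.LA2
import Pool.Agent.Helper34.MP.MIN
import Pool.Agent.Helper34.MP.TF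
import Pool.Agent.Helper35.ME.EIS
import Pool.Agent.Helper35.MP.KEQ
import Pool.Agent.Helper37.ME.PWX
import Pool.Agent.Helper38.ME.BWD
import Pool.Agent.Helper38.MP.DEPL
import Pool.Agent.Helper38.MP.LIM
import Pool.Agent.Helper45.ME.OPH
import Pool.Agent.Helper45.MP.CONF
import Pool.Agent.Helper45.MP.OVER
import Pool.Agent.Helper45.MP.UNF
import Pool.Agent.Helper45.MP.VEX
import Pool.Agent.Helper50.MP.AL
import Pool.Agent.Helper52.ME.TRC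
import Pool.Agent.Helper53.ME.OPA
import Pool.Agent.Helper53.MP.SCARD
import Pool.Agent.Helper53.MP.UZ
import Pool.Agent.Helper57.ME.SINV
import Pool.Agent.Helper57.MP.HECKE
import Pool.Agent.Helper57.MP.STURM
import Pool.Agent.Helper59.MP.DIMO
import Pool.Agent.Helper63.ME.LBY
import Pool.Agent.Helper68.ME.FARG
import Pool.Agent.Helper68.MP.EIG
import Pool.Agent.Helper68.MP.MONE
import Pool.Agent.Helper74.ME.FWD
import Pool.Agent.Helper78.ME.RNK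
import Pool.Agent.Helper79.MP.WEYL2
import Pool.Agent.Helper84.ME.PDIM
import Pool.Agent.Helper84.MP.CHAIN
import Pool.Agent.Helper84.MP.TILE
import Pool.Agent.Helper85.ME.SPA
import Pool.Agent.Helper85.MP.STRICT
import Pool.Agent.Helper87.MP.ALC
import Pool.Agent.Helper87.MP.ALG
import Pool.Agent.Helper87.MP.LA
import Pool.Agent.Helper87.MP.PNF
import Pool.Agent.Helper9.MP.COS
import Pool.Agent.Helper9.MP.FCL
import Pool.Agent.Helper92.MP.SURJ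
import Pool.Agent.Helper92.MP.TEST
import Pool.Agent.Helper94.ME.CUS
import Pool.Agent.Helper94.ME.PRDS
import Pool.Agent.Helper95.ME.TILW
import Pool.Agent.Helper96.ME.MAINE
import Pool.Agent.Helper96.MP.CONN
import Pool.Agent.Helper96.MP.ES
import Pool.Agent.Helper96.MP.PERM
import Pool.Agent.Helper96.MP.QDIF
import Pool.Agent.Helper96.MP.VF

set_option autoImplicit false

namespace Pool.Agent.Helper96.ME

theorem ae_SURJ : Pool.Agent.Helper96.MP.ST_SURJ :=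
  Pool.Agent.Helper96.MP.st_SURJ
theorem ae_VEX : Pool.Agent.Helper96.MP.ST_VEX :=
  Pool.Agent.Helper96.MP.st_VEX ae_SURJ
theorem ae_QDIF : Pool.Agent.Helper96.MP.ST_QDIF :=
  Pool.Agent.Helper96.MP.st_QDIF
theorem ae_HERM : Pool.Agent.Helper96.MP.ST_HERM :=
  Pool.Agent.Helper96.MP.st_HERM
theorem ae_FLIM : Pool.Agent.Helper96.MP.ST_FLIM :=
  Pool.Agent.Helper96.MP.st_FLIM ae_QDIF ae_HERM
theorem ae_TF : Pool.Agent.Helper96.MP.ST_TF :=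
  Pool.Agent.Helper96.MP.st_TF
theorem ae_CHAIN : Pool.Agent.Helper96.MP.ST_CHAIN :=
  Pool.Agent.Helper96.MP.st_CHAIN ae_HERM
theorem ae_TILE : Pool.Agent.Helper96.MP.ST_TILE :=
  Pool.Agent.Helper96.MP.st_TILE ae_HERM ae_CHAIN
theorem ae_VF : Pool.Agent.Helper96.MP.ST_VF :=
  Pool.Agent.Helper96.MP.st_VF ae_VEX ae_FLIM ae_TF ae_TILE ae_SURJ
theorem ae_CONN : Pool.Agent.Helper96.MP.ST_CONN :=
  Pool.Agent.Helper96.MP.st_CONN
theorem ae_FAREY : Pool.Agent.Helper96.MP.ST_FAREY :=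
  Pool.Agent.Helper96.MP.st_FAREY ae_CONN
theorem ae_WT : Pool.Agent.Helper96.MP.ST_WT :=
  Pool.Agent.Helper96.MP.st_WT
theorem ae_UZ : Pool.Agent.Helper96.MP.ST_UZ :=
  Pool.Agent.Helper53.MP.st_UZ
theorem ae_MIN : Pool.Agent.Helper96.MP.ST_MIN :=
  Pool.Agent.Helper96.MP.st_MIN
theorem ae_COV : Pool.Agent.Helper96.MP.ST_COV :=
  Pool.Agent.Helper96.MP.st_COV
theorem ae_OVER : Pool.Agent.Helper96.MP.ST_OVER :=
  Pool.Agent.Helper96.MP.st_OVER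
theorem ae_CONF : Pool.Agent.Helper96.MP.ST_CONF :=
  Pool.Agent.Helper96.MP.st_CONF
theorem ae_UNF : Pool.Agent.Helper96.MP.ST_UNF :=
  Pool.Agent.Helper96.MP.st_UNF
theorem ae_TEST : Pool.Agent.Helper96.MP.ST_TEST :=
  Pool.Agent.Helper96.MP.st_TEST ae_UNF
theorem ae_WEYL2 : Pool.Agent.Helper96.MP.ST_WEYL2 :=
  Pool.Agent.Helper96.MP.st_WEYL2
theorem ae_LIM : Pool.Agent.Helper96.MP.ST_LIM :=
  Pool.Agent.Helper96.MP.st_LIM ae_COV ae_OVER ae_CONF ae_TEST ae_WEYL2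
theorem ae_EQV : Pool.Agent.Helper96.MP.ST_EQV :=
  Pool.Agent.Helper96.MP.st_EQV ae_CONF
theorem ae_CSP : Pool.Agent.Helper96.MP.ST_CSP :=
  Pool.Agent.Helper96.MP.st_CSP ae_COV ae_OVER
theorem ae_QEXP : Pool.Agent.Helper96.MP.ST_QEXP :=
  Pool.Agent.Helper96.MP.st_QEXP
theorem ae_PER : Pool.Agent.Helper96.MP.ST_PER :=
  Pool.Agent.Helper96.MP.st_PER
theorem ae_ES : Pool.Agent.Helper96.MP.ST_ES :=
  Pool.Agent.Helper96.MP.st_ES ae_WT ae_UZ ae_MIN ae_LIM ae_EQV ae_CSP ae_QEXP ae_PER ae_FLIM ae_QDIF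
theorem ae_FCUSP : Pool.Agent.Helper96.MP.ST_FCUSP :=
  Pool.Agent.Helper96.MP.st_FCUSP ae_QDIF
theorem ae_QUNI : Pool.Agent.Helper96.MP.ST_QUNI :=
  Pool.Agent.Helper96.MP.st_QUNI
theorem ae_INJ : Pool.Agent.Helper96.MP.ST_INJ :=
  Pool.Agent.Helper96.MP.st_INJ ae_FCUSP ae_QDIF ae_QUNI ae_FLIM
theorem ae_PERM : Pool.Agent.Helper96.MP.ST_PERM :=
  Pool.Agent.Helper96.MP.st_PERM ae_HERM
theorem ae_HECKE : Pool.Agent.Helper96.MP.ST_HECKE :=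
  Pool.Agent.Helper96.MP.st_HECKE ae_PERM
theorem ae_EIG : Pool.Agent.Helper96.MP.ST_EIG :=
  Pool.Agent.Helper96.MP.st_EIG
theorem ae_STURM : Pool.Agent.Helper96.MP.ST_STURM :=
  Pool.Agent.Helper96.MP.st_STURM ae_QDIF ae_QUNI
theorem ae_FD : Pool.Agent.Helper96.MP.ST_FD :=
  Pool.Agent.Helper96.MP.st_FD ae_STURM
theorem ae_ALG : Pool.Agent.Helper96.MP.ST_ALG :=
  Pool.Agent.Helper96.MP.st_ALG
theorem ae_ALC : Pool.Agent.Helper96.MP.ST_ALC :=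
  Pool.Agent.Helper96.MP.st_ALC
theorem ae_AL : Pool.Agent.Helper96.MP.ST_AL :=
  Pool.Agent.Helper96.MP.st_AL ae_ALG ae_ALC ae_SURJ ae_QDIF ae_QEXP ae_QUNI
theorem ae_DEPL : Pool.Agent.Helper96.MP.ST_DEPL :=
  Pool.Agent.Helper96.MP.st_DEPL
theorem ae_MONE : Pool.Agent.Helper96.MP.ST_MONE :=
  Pool.Agent.Helper96.MP.st_MONE ae_EIG ae_FD ae_AL ae_HECKE ae_DEPL ae_STURM ae_QDIF
theorem ae_BDRY : Pool.Agent.Helper96.MP.ST_BDRY :=
  Pool.Agent.Helper96.MP.st_BDRY ae_SURJ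
theorem ae_STRICT : Pool.Agent.Helper96.MP.ST_STRICT :=
  Pool.Agent.Helper96.MP.st_STRICT ae_QDIF ae_FLIM ae_QUNI
theorem ae_DIMO : Pool.Agent.Helper96.MP.ST_DIMO :=
  Pool.Agent.Helper96.MP.st_DIMO ae_FAREY ae_CONN ae_ES ae_INJ ae_FLIM ae_TF ae_TILE ae_PERM ae_HECKE ae_MONE ae_BDRY ae_STRICT ae_SURJ ae_QDIF
theorem ae_LA : Pool.Agent.Helper96.MP.ST_LA :=
  Pool.Agent.Helper96.MP.st_LA
theorem ae_FCL : Pool.Agent.Helper96.MP.ST_FCL :=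
  Pool.Agent.Helper96.MP.st_FCL ae_FLIM ae_QDIF
theorem ae_PNF : Pool.Agent.Helper96.MP.ST_PNF :=
  Pool.Agent.Helper96.MP.st_PNF
theorem ae_PDIM : Pool.Agent.Helper96.ME.ST_PDIM :=
  Pool.Agent.Helper96.ME.st_PDIM ae_VF ae_DIMO ae_INJ ae_TILE ae_FAREY ae_VEX ae_CONN ae_LA ae_FCL ae_PNF ae_FLIM ae_SURJ
theorem ae_CAI : Pool.Agent.Helper96.ME.ST_CAI :=
  Pool.Agent.Helper96.ME.st_CAI
theorem ae_COS : Pool.Agent.Helper96.MP.ST_COS :=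
  Pool.Agent.Helper96.MP.st_COS ae_SURJ
theorem ae_LFT : Pool.Agent.Helper96.ME.ST_LFT :=
  Pool.Agent.Helper96.ME.st_LFT ae_SURJ ae_COS
theorem ae_OPA : Pool.Agent.Helper96.ME.ST_OPA :=
  Pool.Agent.Helper96.ME.st_OPA ae_CAI ae_LFT
theorem ae_OPH : Pool.Agent.Helper96.ME.ST_OPH :=
  Pool.Agent.Helper96.ME.st_OPH ae_CAI ae_LFT ae_PERM
theorem ae_SPX : Pool.Agent.Helper96.ME.ST_SPX :=
  Pool.Agent.Helper96.ME.st_SPX ae_CAI ae_LFT ae_OPA ae_OPH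
theorem ae_SINV : Pool.Agent.Helper96.ME.ST_SINV :=
  Pool.Agent.Helper96.ME.st_SINV
theorem ae_SPA : Pool.Agent.Helper96.ME.ST_SPA :=
  Pool.Agent.Helper96.ME.st_SPA
theorem ae_TRC : Pool.Agent.Helper96.ME.ST_TRC :=
  Pool.Agent.Helper96.ME.st_TRC ae_SPA
theorem ae_EIS : Pool.Agent.Helper96.ME.ST_EIS :=
  Pool.Agent.Helper96.ME.st_EIS ae_SPA
theorem ae_CUS : Pool.Agent.Helper96.ME.ST_CUS :=
  Pool.Agent.Helper96.ME.st_CUS ae_SPA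
theorem ae_RNK : Pool.Agent.Helper96.ME.ST_RNK :=
  Pool.Agent.Helper96.ME.st_RNK ae_SINV ae_TRC ae_EIS ae_CUS
theorem ae_PRDS : Pool.Agent.Helper96.ME.ST_PRDS :=
  Pool.Agent.Helper96.ME.st_PRDS
theorem ae_GIND : Pool.Agent.Helper96.ME.ST_GIND :=
  Pool.Agent.Helper96.ME.st_GIND ae_RNK ae_PRDS
theorem ae_PWX : Pool.Agent.Helper96.ME.ST_PWX :=
  Pool.Agent.Helper96.ME.st_PWX ae_COS
theorem ae_YSW : Pool.Agent.Helper96.ME.ST_YSW :=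
  Pool.Agent.Helper96.ME.st_YSW ae_LFT ae_COS
theorem ae_LBY : Pool.Agent.Helper96.ME.ST_LBY :=
  Pool.Agent.Helper96.ME.st_LBY ae_SPA ae_TRC
theorem ae_KPROD : Pool.Agent.Helper96.MP.ST_KPROD :=
  Pool.Agent.Helper11.MP.st_KPROD
theorem ae_KEQ : Pool.Agent.Helper96.MP.ST_KEQ :=
  Pool.Agent.Helper96.MP.st_KEQ
theorem ae_LBV : Pool.Agent.Helper96.ME.ST_LBV :=
  Pool.Agent.Helper96.ME.st_LBV ae_GIND ae_LBY ae_KPROD ae_KEQ ae_PNF
theorem ae_LA2 : Pool.Agent.Helper96.MP.ST_LA2 :=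
  Pool.Agent.Helper96.MP.st_LA2
theorem ae_TILW : Pool.Agent.Helper96.ME.ST_TILW :=
  Pool.Agent.Helper96.ME.st_TILW ae_HERM ae_CHAIN
theorem ae_FWD : Pool.Agent.Helper96.ME.ST_FWD :=
  Pool.Agent.Helper96.ME.st_FWD ae_TILW ae_LFT ae_COS
theorem ae_FARG : Pool.Agent.Helper96.ME.ST_FARG :=
  Pool.Agent.Helper96.ME.st_FARG
theorem ae_ADX : Pool.Agent.Helper96.ME.ST_ADX :=
  Pool.Agent.Helper96.ME.st_ADX ae_SURJ
theorem ae_BWD : Pool.Agent.Helper96.ME.ST_BWD :=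
  Pool.Agent.Helper96.ME.st_BWD ae_FARG ae_CONN ae_TILW ae_ADX
theorem ae_DIVB : Pool.Agent.Helper96.MP.ST_DIVB :=
  Pool.Agent.Helper96.MP.st_DIVB
theorem ae_SCARD : Pool.Agent.Helper96.MP.ST_SCARD :=
  Pool.Agent.Helper53.MP.st_SCARD ae_DIVB
theorem ae_TOTE : Pool.Agent.Helper96.ME.ST_TOTE :=
  Pool.Agent.Helper96.ME.st_TOTE ae_PDIM ae_SPX ae_GIND ae_LFT ae_PWX ae_YSW ae_SPA ae_LBV ae_LA2 ae_FWD ae_BWD ae_STRICT ae_SCARD ae_PNF ae_CONN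
theorem ae_FPATH : Pool.Agent.Helper96.MP.ST_FPATH :=
  Pool.Agent.Helper96.MP.st_FPATH
theorem ae_MAINE : Pool.Agent.Helper96.ME.ST_MAINE :=
  Pool.Agent.Helper96.ME.st_MAINE ae_TOTE ae_FPATH ae_CONN ae_LFT ae_PDIM ae_BWD ae_FLIM ae_TF

end Pool.Agent.Helper96.ME
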