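import Pool.Agent.Helper96.MP.DefsB
import Pool.Agent.Helper9.MP.Lat

/-!
# MP_bde085_nt, block E: levels `N = Q M²`, the bound `exp (C ψ(Q M) log (N + 1))`

Exact statements `ST_X` of the modules.  Proofs: `/team-store/h96_mpE.md`.
-/

set_option autoImplicit false

namespace Pool.Agent.Helper96.ME

open Pool.Agent.Helper96.MP
open scoped MatrixGroups

/-! ## Part 1: spherical functions on `SL₂` of a finite ring -/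

/-- diagonal matrices -/
def dg {R : Type} [CommRing R] (u : Rˣ) : SL(2, R) :=
  ⟨!![(u : R), 0; 0, ((u⁻¹ : Rˣ) : R)], by simp [Matrix.det_fin_two_of]⟩

/-- unipotent matrices -/
def un {R : Type} [CommRing R] (b : R) : SL(2, R) :=
  ⟨!![1, b; 0, 1], by simp [Matrix.det_fin_two_of]⟩

theorem sg_det {R : Type} [CommRing R] (u : Rˣ) (g : SL(2, R)) :
    Matrix.det !![g 0 0, (u : R) * g 0 1; ((u⁻¹ : Rˣ) : R) * g 1 0, g 1 1] = 1 := by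
  have h := g.2
  rw [Matrix.det_fin_two] at h
  rw [Matrix.det_fin_two_of]
  have h1 : (u : R) * g 0 1 * (((u⁻¹ : Rˣ) : R) * g 1 0) = g 0 1 * g 1 0 := by
    have : (u : R) * ((u⁻¹ : Rˣ) : R) = 1 := u.mul_inv
    linear_combination (g 0 1 * g 1 0) * this
  rw [h1]
  exact h

/-- conjugation by `(u,0;0,1)` -/
def sg {R : Type} [CommRing R] (u : Rˣ) (g : SL(2, R)) : SL(2, R) :=
  ⟨!![g 0 0, (u : R) * g 0 1; ((u⁻¹ : Rˣ) : R) * g 1 0, g 1 1], sg_det u g⟩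

/-- spherical functions -/
structure Sph (R : Type) [CommRing R] (φ : SL(2, R) → ℝ) : Prop where
  one : φ 1 = 1
  left : ∀ (u : Rˣ) (g : SL(2, R)), φ (dg u * g) = φ g
  sig : ∀ (u : Rˣ) (g : SL(2, R)), φ (sg u g) = φ g
  sph : ∀ g h : SL(2, R), ∑ᶠ u : Rˣ, φ (g * sg u h) = (Nat.card Rˣ : ℝ) * (φ g * φ h)
  inv : ∀ g : SL(2, R), φ g⁻¹ = φ g

/-- the same without the symmetry -/
structure Sph0 (R : Type) [CommRing R] (φ : SL(2, R) → ℝ) : Prop where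
  one : φ 1 = 1
  left : ∀ (u : Rˣ) (g : SL(2, R)), φ (dg u * g) = φ g
  sig : ∀ (u : Rˣ) (g : SL(2, R)), φ (sg u g) = φ g
  sph : ∀ g h : SL(2, R), ∑ᶠ u : Rˣ, φ (g * sg u h) = (Nat.card Rˣ : ℝ) * (φ g * φ h)

/-- the sum of the squares -/
noncomputable def sq {R : Type} [CommRing R] (φ : SL(2, R) → ℝ) : ℝ := ∑ᶠ x : SL(2, R), φ x ^ 2

/-- the functions reproduced by `φ` -/
def YS {R : Type} [CommRing R] {V : Type} [AddCommGroup V] [Module ℝ V] (φ : SL(2, R) → ℝ)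
    (w : SL(2, R) → V) : Prop := ∀ y : SL(2, R), ∑ᶠ x : SL(2, R), φ x • w (x * y) = sq φ • w y

/-- SPA: basic facts on spherical functions -/
def ST_SPA : Prop := ∀ (R : Type) [CommRing R] [Finite R] (φ : SL(2, R) → ℝ), Sph R φ →
  (∀ u g, φ (g * dg u) = φ g) ∧ (∀ g, |φ g| ≤ 1) ∧ 1 ≤ sq φ ∧ sq φ ≤ (Nat.card SL(2, R) : ℝ) ∧
  YS φ φ ∧
  ∀ (V : Type) [AddCommGroup V] [Module ℝ V] (w : SL(2, R) → V), YS φ w →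
    (∀ h : SL(2, R), YS φ (fun y => w (y * h))) ∧
    (∀ u : Rˣ, YS φ (fun y => w (sg u y))) ∧
    (∀ (u : Rˣ) (y : SL(2, R)), w (dg u * y) = w y) ∧
    (∀ (u : Rˣ) (y : SL(2, R)), w (sg (u * u) y) = w (y * dg u⁻¹)) ∧
    (∀ y : SL(2, R), ∑ᶠ z : SL(2, R), φ (y * z⁻¹) • w z = sq φ • w y) ∧
    ((∀ (u : Rˣ) (y : SL(2, R)), w (sg u y) = w y) → ∀ y : SL(2, R), w y = φ y • w 1)

/-- TRC: dimension of the space of functions reproduced by `φ` -/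
def ST_TRC : Prop := ∀ (R : Type) [CommRing R] [Finite R] (φ : SL(2, R) → ℝ), Sph R φ →
  (∀ U : Submodule ℝ (SL(2, R) → ℝ), (∀ w, w ∈ U ↔ YS φ w) →
    (Module.finrank ℝ U : ℝ) * sq φ = Nat.card SL(2, R)) ∧
  (∀ U : Submodule ℂ (SL(2, R) → ℂ), (∀ w, w ∈ U ↔ YS φ w) →
    (Module.finrank ℂ U : ℝ) * sq φ = Nat.card SL(2, R))

/-- SINV: spherical functions are symmetric -/
def ST_SINV : Prop := ∀ (p : ℕ), p.Prime → ∀ φ : SL(2, ZMod p) → ℝ, Sph0 (ZMod p) φ →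
  Sph (ZMod p) φ

/-- EIS: the case of a function invariant under unipotent matrices -/
def ST_EIS : Prop := ∀ (p : ℕ), p.Prime → ∀ φ : SL(2, ZMod p) → ℝ, Sph (ZMod p) φ →
  ∀ U : Submodule ℂ (SL(2, ZMod p) → ℂ), (∀ w, w ∈ U ↔ YS φ w) →
  ∀ w ∈ U, w ≠ 0 → (∀ (b : ZMod p) (y : SL(2, ZMod p)), w (y * un b) = w y) →
  Module.finrank ℂ U ≤ p + 1

/-- CUS: the case without such functions -/
def ST_CUS : Prop := ∀ (p : ℕ), p.Prime → ∀ φ : SL(2, ZMod p) → ℝ, Sph (ZMod p) φ →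
  ∀ U : Submodule ℂ (SL(2, ZMod p) → ℂ), (∀ w, w ∈ U ↔ YS φ w) →
  (∀ w ∈ U, (∀ (b : ZMod p) (y : SL(2, ZMod p)), w (y * un b) = w y) → w = 0) →
  Module.finrank ℂ U ≤ p + 1

/-- spherical functions are symmetric and not too concentrated -/
def Gd (R : Type) [CommRing R] (k : ℝ) : Prop := ∀ φ : SL(2, R) → ℝ, Sph0 R φ →
  Sph R φ ∧ (Nat.card SL(2, R) : ℝ) ≤ k * sq φ

/-- RNK: prime fields -/
def ST_RNK : Prop := ∀ p : ℕ, p.Prime → Gd (ZMod p) ((p : ℝ) + 1)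

/-- PRDS: products and isomorphisms -/
def ST_PRDS : Prop := (∀ (R₁ R₂ : Type) [CommRing R₁] [CommRing R₂] [Finite R₁] [Finite R₂]
    (k₁ k₂ : ℝ), 0 ≤ k₁ → 0 ≤ k₂ → Gd R₁ k₁ → Gd R₂ k₂ → Gd (R₁ × R₂) (k₁ * k₂)) ∧
  (∀ (R R' : Type) [CommRing R] [CommRing R'] (_ : R ≃+* R') (k : ℝ), Gd R k → Gd R' k)

/-- GIND: squarefree moduli -/
def ST_GIND : Prop := ∀ M : ℕ, 1 ≤ M → Squarefree M → Gd (ZMod M) (psi M)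

/-- LBY: a basis of small integral functions -/
def ST_LBY : Prop := ∀ (R : Type) [CommRing R] [Finite R] (φ : SL(2, R) → ℝ), Sph R φ →
  ∀ K : ℕ, 1 ≤ K → (∀ g, ∃ k : ℤ, (K : ℝ) * φ g = k) →
  ∀ [Fintype SL(2, R)] (V : Submodule ℝ (SL(2, R) → ℝ)), (∀ w, w ∈ V ↔ YS φ w) →
  ∃ (r : ℕ) (D : ℝ), LB SL(2, R) V r D ∧ 1 ≤ D ∧ (r : ℝ) * sq φ = Nat.card SL(2, R) ∧
    Real.log D ≤ r * (2 * Real.log K + Real.log (Nat.card SL(2, R)))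

/-! ## Part 2: potentials -/

/-- `T_n C = α C + κ` -/
def HC (n : ℕ) (α : ℝ) (C : ℤ → ℤ → ℝ) : Prop := ∃ κ : ℝ, ∀ x y : ℤ, (x ≠ 0 ∨ y ≠ 0) →
  ∑ t ∈ Tn n, C (t.1 * x + t.2.1 * y) (t.2.2 * y) = α * C x y + κ

/-- equality up to a constant -/
def eqc (C C' : ℤ → ℤ → ℝ) : Prop := ∃ κ : ℝ, ∀ x y : ℤ, (x ≠ 0 ∨ y ≠ 0) → C x y = C' x y + κ

/-- real potentials with the symmetries of a newform -/
structure PT (N : ℕ) (a : ℕ → ℤ) (ε : ℝ) (C : ℤ → ℤ → ℝ) : Prop where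
  hom : Hom0 C
  eqv : EqC N C
  sign : ∃ κ : ℝ, ∀ x y : ℤ, (x ≠ 0 ∨ y ≠ 0) → C (-x) y = ε * C x y + κ
  hecke : ∀ l : ℕ, l.Prime → ¬ l ∣ N → l ≤ N ^ 6 → HC l (a l) C ∧ HC (l ^ 2) ((a l : ℝ) ^ 2 - l) C

/-- PDIM: such potentials are unique, up to constants; there is an integral one -/
def ST_PDIM : Prop := ∀ (N : ℕ) (a : ℕ → ℤ) (ε : ℝ), 1 ≤ N → Newform N a → (ε = 1 ∨ ε = -1) →
  ∃ C0 : ℤ → ℤ → ℤ, PT N a ε (fun x y => (C0 x y : ℝ)) ∧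
    (∃ x y : ℤ, (x ≠ 0 ∨ y ≠ 0) ∧ C0 x y ≠ C0 1 0) ∧
    ∀ C : ℤ → ℤ → ℝ, PT N a ε C → ∃ κ : ℝ, eqc C (fun x y => κ * C0 x y)

/-- reduction modulo `M` -/
noncomputable def rd (M : ℕ) (g : SL(2, ℤ)) : SL(2, ZMod M) :=
  Matrix.SpecialLinearGroup.map (Int.castRingHom (ZMod M)) g

/-- a lift in `Γ₀(Q)` -/
noncomputable def lf (M Q : ℕ) (g : SL(2, ZMod M)) : SL(2, ℤ) := by
  classical
  exact if h : ∃ γ : SL(2, ℤ), (Q : ℤ) ∣ γ 1 0 ∧ rd M γ = g then Classical.choose h else 1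

/-- LFT: lifts -/
def ST_LFT : Prop := ∀ M Q : ℕ, 1 ≤ M → 1 ≤ Q → Nat.Coprime Q M →
  (∀ g : SL(2, ZMod M), (Q : ℤ) ∣ (lf M Q g) 1 0 ∧ rd M (lf M Q g) = g) ∧
  (∀ (g : SL(2, ZMod M)) (z : PN Q), ∃ y : SL(2, ℤ), rd M y = g ∧ cls Q y = z)

/-- the potential `C` composed with the matrix `(M g₀₀, g₀₁; M² g₁₀, M g₁₁)` -/
def ca (M : ℕ) (C : ℤ → ℤ → ℝ) (g : SL(2, ℤ)) (x y : ℤ) : ℝ :=
  C (M * g 0 0 * x + g 0 1 * y) (M ^ 2 * g 1 0 * x + M * g 1 1 * y)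

/-- CAI: calculus of `ca` -/
def ST_CAI : Prop := ∀ (M Q : ℕ) (C : ℤ → ℤ → ℝ), 1 ≤ M → 1 ≤ Q → Nat.Coprime Q M → Hom0 C →
  (∀ g, Hom0 (ca M C g)) ∧ (∀ g h, ca M (ca M C g) h = ca M C (g * h)) ∧
  (EqC (Q * M ^ 2) C →
    (∀ g g' : SL(2, ℤ), (Q : ℤ) ∣ g 1 0 → (Q : ℤ) ∣ g' 1 0 →
      (∃ u : (ZMod M)ˣ, rd M g' = dg u * rd M g) → eqc (ca M C g') (ca M C g)) ∧
    (∀ p q r s : ℤ, G0 (Q * M ^ 2) p q r s → ∃ γ : SL(2, ℤ), (Q : ℤ) ∣ γ 1 0 ∧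
      (∃ u : (ZMod M)ˣ, rd M γ = dg u) ∧ ∀ g : SL(2, ℤ), ∀ x y : ℤ,
        ca M C g (p * x + q * y) (r * x + s * y) = ca M C (g * γ) x y))

/-- the operator defined by a function on the group -/
noncomputable def hh (M Q : ℕ) (κ : SL(2, ZMod M) → ℝ) (C : ℤ → ℤ → ℝ) (x y : ℤ) : ℝ :=
  ∑ᶠ g : SL(2, ZMod M), κ g * ca M C (lf M Q g) x y

/-- OPA: the operators preserve equivariance and sign -/
def ST_OPA : Prop := ∀ (M Q : ℕ) (ε : ℝ) (C : ℤ → ℤ → ℝ) (κ : SL(2, ZMod M) → ℝ), 1 ≤ M → 1 ≤ Q →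
  Nat.Coprime Q M → (∀ u g, κ (g * dg u) = κ g) → (∀ u g, κ (sg u g) = κ g) → Hom0 C →
  EqC (Q * M ^ 2) C → Hom0 (hh M Q κ C) ∧ EqC (Q * M ^ 2) (hh M Q κ C) ∧
  ((∃ c : ℝ, ∀ x y : ℤ, (x ≠ 0 ∨ y ≠ 0) → C (-x) y = ε * C x y + c) →
    ∃ c : ℝ, ∀ x y : ℤ, (x ≠ 0 ∨ y ≠ 0) → hh M Q κ C (-x) y = ε * hh M Q κ C x y + c)

/-- OPH: the operators commute with Hecke operators -/
def ST_OPH : Prop := ∀ (M Q n : ℕ) (α : ℝ) (C : ℤ → ℤ → ℝ) (κ : SL(2, ZMod M) → ℝ), 1 ≤ M →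
  1 ≤ Q → Nat.Coprime Q M → 1 ≤ n → Nat.Coprime n (Q * M ^ 2) → (∀ u g, κ (g * dg u) = κ g) →
  (∀ u g, κ (sg u g) = κ g) → Hom0 C → EqC (Q * M ^ 2) C → HC n α C → HC n α (hh M Q κ C)

/-- SPX: the spherical function of a potential -/
def ST_SPX : Prop := ∀ (M Q : ℕ) (a : ℕ → ℤ) (ε : ℝ) (C0 : ℤ → ℤ → ℤ), 1 ≤ M → 1 ≤ Q →
  Nat.Coprime Q M → PT (Q * M ^ 2) a ε (fun x y => (C0 x y : ℝ)) →
  (∃ x y : ℤ, (x ≠ 0 ∨ y ≠ 0) ∧ C0 x y ≠ C0 1 0) →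
  (∀ C : ℤ → ℤ → ℝ, PT (Q * M ^ 2) a ε C → ∃ κ : ℝ, eqc C (fun x y => κ * C0 x y)) →
  ∃ φ : SL(2, ZMod M) → ℝ, Sph0 (ZMod M) φ ∧ (∀ g, ∃ k : ℤ, (Nat.card (ZMod M)ˣ : ℝ) ^ 2 * φ g = k) ∧
    eqc (hh M Q φ (fun x y => (C0 x y : ℝ))) (fun x y => sq φ * C0 x y)

/-! ## Part 3: symbols -/

/-- `w` is the symbol of `C` -/
def PW (M Q : ℕ) (C : ℤ → ℤ → ℝ) (w : SL(2, ZMod M) → PN Q → ℝ) : Prop :=
  ∀ y : SL(2, ℤ), w (rd M y) (cls Q y) = C (y 0 0) (M * y 1 0) - C (y 0 1) (M * y 1 1)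

/-- PWX: existence of the symbol -/
def ST_PWX : Prop := ∀ (M Q : ℕ) (C : ℤ → ℤ → ℝ), 1 ≤ M → 1 ≤ Q → Nat.Coprime Q M → Hom0 C →
  EqC (Q * M ^ 2) C → ∃ w : SL(2, ZMod M) → PN Q → ℝ, PW M Q C w

/-- YSW: the symbol is reproduced by the spherical function -/
def ST_YSW : Prop := ∀ (M Q : ℕ) (C : ℤ → ℤ → ℝ) (φ : SL(2, ZMod M) → ℝ)
  (w : SL(2, ZMod M) → PN Q → ℝ), 1 ≤ M → 1 ≤ Q → Nat.Coprime Q M → Hom0 C → PW M Q C w →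
  eqc (hh M Q φ C) (fun x y => sq φ * C x y) → ∀ z : PN Q, YS φ (fun g => w g z)

/-- FARG: Manin relations give a potential -/
def ST_FARG : Prop := ∀ w : SL(2, ℤ) → ℝ, (∀ y, w y + w (y * ModularGroup.S) = 0) →
  (∀ y, w y + w (y * mR) + w (y * (mR * mR)) = 0) →
  ∃ C : ℤ → ℤ → ℝ, Hom0 C ∧ ∀ y : SL(2, ℤ), w y = C (y 0 0) (y 1 0) - C (y 0 1) (y 1 1)

/-- `Y` is equivalent to the integral matrix `(p,x;q,y)` of determinant `n`: its first row is divided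
by `n` modulo `M`, the second row is proportional modulo `Q` -/
def Adp (M Q n : ℕ) (Y : SL(2, ℤ)) (p x q y : ℤ) : Prop :=
  (M : ℤ) ∣ n * Y 0 0 - p ∧ (M : ℤ) ∣ n * Y 0 1 - x ∧ (M : ℤ) ∣ Y 1 0 - q ∧ (M : ℤ) ∣ Y 1 1 - y ∧
    eqv Q (Y 1 0) (Y 1 1) q y

/-- ADX: existence and uniqueness -/
def ST_ADX : Prop := ∀ M Q n : ℕ, 1 ≤ M → 1 ≤ Q → Nat.Coprime Q M → 1 ≤ n →
  Nat.Coprime n (Q * M ^ 2) → ∀ p x q y : ℤ, p * y - x * q = n →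
  (∃ Y : SL(2, ℤ), Adp M Q n Y p x q y) ∧
  ∀ Y Y' : SL(2, ℤ), Adp M Q n Y p x q y → Adp M Q n Y' p x q y → rd M Y = rd M Y' ∧
    cls Q Y = cls Q Y'

/-- `F m` is equivalent to `y m` -/
def AdF (M Q n : ℕ) (y : SL(2, ℤ)) (F : ℕ × ℕ × ℕ × ℕ → SL(2, ℤ)) : Prop := ∀ m ∈ Sn n,
  Adp M Q n (F m) (y 0 0 * m.1 + y 0 1 * m.2.2.1) (y 0 0 * m.2.1 + y 0 1 * m.2.2.2)
    (y 1 0 * m.1 + y 1 1 * m.2.2.1) (y 1 0 * m.2.1 + y 1 1 * m.2.2.2)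

/-- Hecke relation for symbols -/
def HW (M Q n : ℕ) (α : ℝ) (w : SL(2, ZMod M) → PN Q → ℝ) : Prop :=
  ∀ (y : SL(2, ℤ)) (F : ℕ × ℕ × ℕ × ℕ → SL(2, ℤ)), AdF M Q n y F →
    ∑ m ∈ Sn n, w (rd M (F m)) (cls Q (F m)) = α * w (rd M y) (cls Q y)

/-- the matrix `(y₀₀,-y₀₁;-y₁₀,y₁₁)` -/
def cj (y : SL(2, ℤ)) : SL(2, ℤ) := ⟨!![y 0 0, -y 0 1; -y 1 0, y 1 1], by
  have h := y.2
  rw [Matrix.det_fin_two] at h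
  rw [Matrix.det_fin_two_of]
  linarith⟩

/-- relations for symbols -/
structure RW (M Q : ℕ) (a : ℕ → ℤ) (ε : ℝ) (w : SL(2, ZMod M) → PN Q → ℝ) : Prop where
  left : ∀ (u : (ZMod M)ˣ) (g : SL(2, ZMod M)) (z : PN Q), w (dg u * g) z = w g z
  two : ∀ y : SL(2, ℤ), w (rd M y) (cls Q y) +
    w (rd M (y * ModularGroup.S)) (cls Q (y * ModularGroup.S)) = 0
  three : ∀ y : SL(2, ℤ), w (rd M y) (cls Q y) + w (rd M (y * mR)) (cls Q (y * mR)) +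
    w (rd M (y * (mR * mR))) (cls Q (y * (mR * mR))) = 0
  sign : ∀ y : SL(2, ℤ), w (rd M (cj y)) (cls Q (cj y)) = ε * w (rd M y) (cls Q y)
  hecke : ∀ l : ℕ, l.Prime → ¬ l ∣ Q * M ^ 2 → l ≤ (Q * M ^ 2) ^ 6 →
    HW M Q l (a l) w ∧ HW M Q (l ^ 2) ((a l : ℝ) ^ 2 - l) w

/-- TILW: Hecke operators on symbols -/
def ST_TILW : Prop := ∀ (M Q n : ℕ) (C : ℤ → ℤ → ℝ) (w : SL(2, ZMod M) → PN Q → ℝ), 1 ≤ M →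
  1 ≤ Q → Nat.Coprime Q M → 1 ≤ n → Nat.Coprime n (Q * M ^ 2) → Hom0 C → EqC (Q * M ^ 2) C →
  PW M Q C w → ∀ (y : SL(2, ℤ)) (F : ℕ × ℕ × ℕ × ℕ → SL(2, ℤ)), AdF M Q n y F →
    ∑ m ∈ Sn n, w (rd M (F m)) (cls Q (F m)) =
      ∑ t ∈ Tn n, (C (t.1 * y 0 0 + t.2.1 * (M * y 1 0)) (t.2.2 * (M * y 1 0)) -
        C (t.1 * y 0 1 + t.2.1 * (M * y 1 1)) (t.2.2 * (M * y 1 1)))

/-- FWD: the symbol of a potential satisfies the relations -/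
def ST_FWD : Prop := ∀ (M Q : ℕ) (a : ℕ → ℤ) (ε : ℝ) (C : ℤ → ℤ → ℝ)
  (w : SL(2, ZMod M) → PN Q → ℝ), 1 ≤ M → 1 ≤ Q → Nat.Coprime Q M → PT (Q * M ^ 2) a ε C →
  PW M Q C w → RW M Q a ε w

/-- BWD: a solution of the relations is the symbol of a potential -/
def ST_BWD : Prop := ∀ (M Q : ℕ) (a : ℕ → ℤ) (ε : ℝ) (w : SL(2, ZMod M) → PN Q → ℝ), 1 ≤ M →
  1 ≤ Q → Nat.Coprime Q M → RW M Q a ε w → ∃ C : ℤ → ℤ → ℝ, PT (Q * M ^ 2) a ε C ∧ PW M Q C w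

/-- LBV: basis of the space of functions reproduced by `φ` -/
def ST_LBV : Prop := ∀ (M Q : ℕ) (φ : SL(2, ZMod M) → ℝ), 1 ≤ M → Squarefree M → 1 ≤ Q →
  Nat.Coprime Q M → Sph (ZMod M) φ → (∀ g, ∃ k : ℤ, (Nat.card (ZMod M)ˣ : ℝ) ^ 2 * φ g = k) →
  ∀ [Fintype SL(2, ZMod M)] [Fintype (PN Q)] (V : Submodule ℝ (SL(2, ZMod M) × PN Q → ℝ)),
  (∀ w, w ∈ V ↔ ∀ z, YS φ (fun g => w (g, z))) →
  ∃ (r : ℕ) (D : ℝ), LB (SL(2, ZMod M) × PN Q) V r D ∧ 1 ≤ D ∧ (r : ℝ) ≤ psi (Q * M) ∧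
    Real.log D ≤ 8 * psi (Q * M) * Real.log M

/-- TOTE: a small integral symbol -/
def ST_TOTE : Prop := ∃ C : ℝ, 0 < C ∧ ∀ (M Q : ℕ) (a : ℕ → ℤ) (ε : ℤ), 1 ≤ M → Squarefree M →
  1 ≤ Q → Nat.Coprime Q M → Newform (Q * M ^ 2) a → (ε = 1 ∨ ε = -1) →
  ∃ w : SL(2, ZMod M) → PN Q → ℤ, (∃ g z, w g z ≠ 0) ∧
    RW M Q a ε (fun g z => (w g z : ℝ)) ∧
    ∀ g z, |(w g z : ℝ)| ≤ Real.exp (C * psi (Q * M) * Real.log ((Q * M ^ 2 : ℕ) + 1))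

/-! ## Part 4: assembly -/

/-- MAINE: the main theorem in terms of cusps -/
def ST_MAINE : Prop := ∃ C : ℝ, 0 < C ∧ ∀ (M Q : ℕ) (a : ℕ → ℤ), 1 ≤ M → Squarefree M → 1 ≤ Q →
  Nat.Coprime Q M → Newform (Q * M ^ 2) a →
  ∀ (p1 r1 p2 r2 : ℤ) (q1 s1 q2 s2 : ℤ) (Ω₁ Ω₂ : ℂ), G0 (Q * M ^ 2) p1 q1 r1 s1 →
  G0 (Q * M ^ 2) p2 q2 r2 s2 →
  Ω₁ = FC (fun k => (a k : ℂ)) p1 r1 → Ω₂ = FC (fun k => (a k : ℂ)) p2 r2 →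
  Ω₁.im = 0 → 0 < Ω₁.re → 0 < Ω₂.im → 0 ≤ Ω₂.re → Ω₂.re < Ω₁.re →
  ∀ p q r s : ℤ, G0 (Q * M ^ 2) p q r s → ∀ m n : ℤ,
    FC (fun k => (a k : ℂ)) p r = (m : ℂ) * Ω₁ + (n : ℂ) * Ω₂ →
    |(m : ℝ)| ≤ (1 + Real.log (1 + |(r : ℝ)|)) *
      Real.exp (C * psi (Q * M) * Real.log ((Q * M ^ 2 : ℕ) + 1)) ∧
    |(n : ℝ)| ≤ (1 + Real.log (1 + |(r : ℝ)|)) *
      Real.exp (C * psi (Q * M) * Real.log ((Q * M ^ 2 : ℕ) + 1))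

end Pool.Agent.Helper96.ME
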