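import Pool.Agent.Helper96.ME.Defs

set_option autoImplicit false

namespace Pool.Agent.Helper96.ME

open Pool.Agent.Helper96.MP

open Complex

/-- from the frozen text to the cusp form of the theorem -/
theorem st_FINALE (hM : ST_MAINE) (hF : ST_FLIM) :
  ∃ C : ℝ, 0 < C ∧
  ∀ N Q M : ℕ, 1 ≤ N → N = Q * M ^ 2 → Squarefree M → Nat.Coprime Q M → ∀ a : ℕ → ℤ,
    a 0 = 0 → a 1 = 1 →
    (∀ τ : ℂ, 0 < τ.im → Summable (fun k : ℕ => (a k : ℂ) * Complex.exp (2 * (Real.pi : ℂ) * Complex.I * (k : ℂ) * τ))) →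
    (∀ τ : ℂ, 0 < τ.im → ∀ p q r s : ℤ, p * s - q * r = 1 → (N : ℤ) ∣ r →
      ∑' k : ℕ, (a k : ℂ) * Complex.exp (2 * (Real.pi : ℂ) * Complex.I * (k : ℂ) * (((p : ℂ) * τ + (q : ℂ)) / ((r : ℂ) * τ + (s : ℂ))))
        = ((r : ℂ) * τ + (s : ℂ)) ^ 2 * ∑' k : ℕ, (a k : ℂ) * Complex.exp (2 * (Real.pi : ℂ) * Complex.I * (k : ℂ) * τ)) →
    (∃ B : ℝ, ∀ τ : ℂ, 0 < τ.im →
      τ.im * ‖∑' k : ℕ, (a k : ℂ) * Complex.exp (2 * (Real.pi : ℂ) * Complex.I * (k : ℂ) * τ)‖ ≤ B) →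
    (∀ ℓ : ℕ, ℓ.Prime → ¬ ℓ ∣ N → ∀ n : ℕ,
      a (ℓ * n) + (if ℓ ∣ n then (ℓ : ℤ) * a (n / ℓ) else 0) = a ℓ * a n) →
    (∀ L : ℕ, 0 < L → L ∣ N → L < N → ∀ b : ℕ → ℂ,
      (∀ τ : ℂ, 0 < τ.im → Summable (fun k : ℕ => b k * Complex.exp (2 * (Real.pi : ℂ) * Complex.I * (k : ℂ) * τ))) →
      (∀ τ : ℂ, 0 < τ.im → ∀ p q r s : ℤ, p * s - q * r = 1 → (L : ℤ) ∣ r →
        ∑' k : ℕ, b k * Complex.exp (2 * (Real.pi : ℂ) * Complex.I * (k : ℂ) * (((p : ℂ) * τ + (q : ℂ)) / ((r : ℂ) * τ + (s : ℂ))))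
          = ((r : ℂ) * τ + (s : ℂ)) ^ 2 * ∑' k : ℕ, b k * Complex.exp (2 * (Real.pi : ℂ) * Complex.I * (k : ℂ) * τ)) →
      (∃ B : ℝ, ∀ τ : ℂ, 0 < τ.im →
        τ.im * ‖∑' k : ℕ, b k * Complex.exp (2 * (Real.pi : ℂ) * Complex.I * (k : ℂ) * τ)‖ ≤ B) →
      (∀ ℓ : ℕ, ℓ.Prime → ¬ ℓ ∣ N → ∀ n : ℕ,
        b (ℓ * n) + (if ℓ ∣ n then (ℓ : ℂ) * b (n / ℓ) else 0) = (a ℓ : ℂ) * b n) →
      ∀ n : ℕ, b n = 0) →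
    ∀ Ω₁ Ω₂ : ℂ,
      Ω₁.im = 0 → 0 < Ω₁.re →
      (∃ p q r s : ℤ, p * s - q * r = 1 ∧ (N : ℤ) ∣ r ∧
        Ω₁ = (∑' k : ℕ, (a k : ℂ) / (k : ℂ) * Complex.exp (2 * (Real.pi : ℂ) * Complex.I * (k : ℂ) * (((p : ℂ) * Complex.I + (q : ℂ)) / ((r : ℂ) * Complex.I + (s : ℂ)))))
          - ∑' k : ℕ, (a k : ℂ) / (k : ℂ) * Complex.exp (2 * (Real.pi : ℂ) * Complex.I * (k : ℂ) * Complex.I)) →
      (∀ p q r s : ℤ, p * s - q * r = 1 → (N : ℤ) ∣ r →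
        ((∑' k : ℕ, (a k : ℂ) / (k : ℂ) * Complex.exp (2 * (Real.pi : ℂ) * Complex.I * (k : ℂ) * (((p : ℂ) * Complex.I + (q : ℂ)) / ((r : ℂ) * Complex.I + (s : ℂ)))))
          - ∑' k : ℕ, (a k : ℂ) / (k : ℂ) * Complex.exp (2 * (Real.pi : ℂ) * Complex.I * (k : ℂ) * Complex.I)).im = 0 →
        0 < ((∑' k : ℕ, (a k : ℂ) / (k : ℂ) * Complex.exp (2 * (Real.pi : ℂ) * Complex.I * (k : ℂ) * (((p : ℂ) * Complex.I + (q : ℂ)) / ((r : ℂ) * Complex.I + (s : ℂ)))))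
          - ∑' k : ℕ, (a k : ℂ) / (k : ℂ) * Complex.exp (2 * (Real.pi : ℂ) * Complex.I * (k : ℂ) * Complex.I)).re →
        Ω₁.re ≤ ((∑' k : ℕ, (a k : ℂ) / (k : ℂ) * Complex.exp (2 * (Real.pi : ℂ) * Complex.I * (k : ℂ) * (((p : ℂ) * Complex.I + (q : ℂ)) / ((r : ℂ) * Complex.I + (s : ℂ)))))
          - ∑' k : ℕ, (a k : ℂ) / (k : ℂ) * Complex.exp (2 * (Real.pi : ℂ) * Complex.I * (k : ℂ) * Complex.I)).re) →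
      0 < Ω₂.im → 0 ≤ Ω₂.re → Ω₂.re < Ω₁.re →
      (∃ p q r s : ℤ, p * s - q * r = 1 ∧ (N : ℤ) ∣ r ∧
        Ω₂ = (∑' k : ℕ, (a k : ℂ) / (k : ℂ) * Complex.exp (2 * (Real.pi : ℂ) * Complex.I * (k : ℂ) * (((p : ℂ) * Complex.I + (q : ℂ)) / ((r : ℂ) * Complex.I + (s : ℂ)))))
          - ∑' k : ℕ, (a k : ℂ) / (k : ℂ) * Complex.exp (2 * (Real.pi : ℂ) * Complex.I * (k : ℂ) * Complex.I)) →
      (∀ p q r s : ℤ, p * s - q * r = 1 → (N : ℤ) ∣ r →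
        0 < ((∑' k : ℕ, (a k : ℂ) / (k : ℂ) * Complex.exp (2 * (Real.pi : ℂ) * Complex.I * (k : ℂ) * (((p : ℂ) * Complex.I + (q : ℂ)) / ((r : ℂ) * Complex.I + (s : ℂ)))))
          - ∑' k : ℕ, (a k : ℂ) / (k : ℂ) * Complex.exp (2 * (Real.pi : ℂ) * Complex.I * (k : ℂ) * Complex.I)).im →
        Ω₂.im ≤ ((∑' k : ℕ, (a k : ℂ) / (k : ℂ) * Complex.exp (2 * (Real.pi : ℂ) * Complex.I * (k : ℂ) * (((p : ℂ) * Complex.I + (q : ℂ)) / ((r : ℂ) * Complex.I + (s : ℂ)))))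
          - ∑' k : ℕ, (a k : ℂ) / (k : ℂ) * Complex.exp (2 * (Real.pi : ℂ) * Complex.I * (k : ℂ) * Complex.I)).im) →
      ∀ α β γ δ : ℤ, α * δ - β * γ = 1 → (N : ℤ) ∣ γ →
        ∀ m n : ℤ,
          (∑' k : ℕ, (a k : ℂ) / (k : ℂ) * Complex.exp (2 * (Real.pi : ℂ) * Complex.I * (k : ℂ) * (((α : ℂ) * Complex.I + (β : ℂ)) / ((γ : ℂ) * Complex.I + (δ : ℂ)))))
            - ∑' k : ℕ, (a k : ℂ) / (k : ℂ) * Complex.exp (2 * (Real.pi : ℂ) * Complex.I * (k : ℂ) * Complex.I)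
            = (m : ℂ) * Ω₁ + (n : ℂ) * Ω₂ →
          |(m : ℝ)| ≤ (1 + Real.log (1 + |(γ : ℝ)|)) *
              Real.exp (C * (((Q * M : ℕ) : ℝ) * ∏ p ∈ (Q * M).primeFactors, (1 + 1 / (p : ℝ))) *
                Real.log (N + 1)) ∧
          |(n : ℝ)| ≤ (1 + Real.log (1 + |(γ : ℝ)|)) *
              Real.exp (C * (((Q * M : ℕ) : ℝ) * ∏ p ∈ (Q * M).primeFactors, (1 + 1 / (p : ℝ))) *
                Real.log (N + 1)) := by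
  obtain ⟨C, hC, hmain⟩ := hM
  refine ⟨C, hC, ?_⟩
  intro N Q M hN hNQM hsq hQM a ha0 ha1 hsum hinv hbdd hhecke hnew Ω₁ Ω₂ hΩ1im hΩ1re hΩ1 _ hΩ2im hΩ2re hΩ2lt hΩ2 _
    α β γ δ hdet hdvd m n hmn
  have hcusp : Cusp N (fun k => (a k : ℂ)) := ⟨hsum, hinv, hbdd⟩
  have hnf : Newform N a := ⟨ha0, ha1, hcusp, hhecke, fun M hM hMN hlt b hb hT =>
    hnew M hM hMN hlt b hb.sum hb.inv hb.bdd hT⟩
  obtain ⟨_, _, _, hper, _⟩ := hF N _ hN hcusp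
  have hFC10 : FC (fun k => (a k : ℂ)) 1 0 = 0 := by simp [FC]
  have key : ∀ p q r s : ℤ, p * s - q * r = 1 → (N : ℤ) ∣ r →
      (∑' k : ℕ, (a k : ℂ) / (k : ℂ) * Complex.exp (2 * (Real.pi : ℂ) * Complex.I * (k : ℂ) * (((p : ℂ) * Complex.I + (q : ℂ)) / ((r : ℂ) * Complex.I + (s : ℂ)))))
          - ∑' k : ℕ, (a k : ℂ) / (k : ℂ) * Complex.exp (2 * (Real.pi : ℂ) * Complex.I * (k : ℂ) * Complex.I)
        = FC (fun k => (a k : ℂ)) p r := by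
    intro p q r s h1 h2
    have h := hper p q r s ⟨h1, h2⟩ Complex.I (by simp [UH])
    rw [hFC10, sub_zero] at h
    exact h
  obtain ⟨p1, q1, r1, s1, hd1, hn1, he1⟩ := hΩ1
  obtain ⟨p2, q2, r2, s2, hd2, hn2, he2⟩ := hΩ2
  rw [key _ _ _ _ hd1 hn1] at he1
  rw [key _ _ _ _ hd2 hn2] at he2
  rw [key _ _ _ _ hdet hdvd] at hmn
  subst hNQM
  have hM0 : M ≠ 0 := by
    rintro rfl
    simp at hN
  have hQ0 : Q ≠ 0 := by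
    rintro rfl
    simp at hN
  exact hmain M Q a (Nat.one_le_iff_ne_zero.2 hM0) hsq (Nat.one_le_iff_ne_zero.2 hQ0) hQM hnf p1 r1 p2 r2 q1 s1 q2 s2 Ω₁ Ω₂ ⟨hd1, hn1⟩ ⟨hd2, hn2⟩ he1 he2 hΩ1im hΩ1re
    hΩ2im hΩ2re hΩ2lt α β γ δ ⟨hdet, hdvd⟩ m n hmn

end Pool.Agent.Helper96.ME
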