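import Pool.Agent.Helper96.ME.Defs

/-!
# MP_bde085_nt, block E: small library on `dg`, `sg`, `un`, `rd`, `cls`
-/

set_option autoImplicit false

namespace Pool.Agent.Helper96.ME

open Pool.Agent.Helper96.MP
open scoped MatrixGroups

namespace Lib

section ring

variable {R : Type} [CommRing R]

theorem ext4 {g h : SL(2, R)} (h00 : g 0 0 = h 0 0) (h01 : g 0 1 = h 0 1) (h10 : g 1 0 = h 1 0)
    (h11 : g 1 1 = h 1 1) : g = h := by
  ext i j
  fin_cases i <;> fin_cases j <;> assumption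

theorem mul00 (g h : SL(2, R)) : (g * h) 0 0 = g 0 0 * h 0 0 + g 0 1 * h 1 0 := by
  simp [Matrix.SpecialLinearGroup.coe_mul, Matrix.mul_apply, Fin.sum_univ_two]
theorem mul01 (g h : SL(2, R)) : (g * h) 0 1 = g 0 0 * h 0 1 + g 0 1 * h 1 1 := by
  simp [Matrix.SpecialLinearGroup.coe_mul, Matrix.mul_apply, Fin.sum_univ_two]
theorem mul10 (g h : SL(2, R)) : (g * h) 1 0 = g 1 0 * h 0 0 + g 1 1 * h 1 0 := by
  simp [Matrix.SpecialLinearGroup.coe_mul, Matrix.mul_apply, Fin.sum_univ_two]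
theorem mul11 (g h : SL(2, R)) : (g * h) 1 1 = g 1 0 * h 0 1 + g 1 1 * h 1 1 := by
  simp [Matrix.SpecialLinearGroup.coe_mul, Matrix.mul_apply, Fin.sum_univ_two]

theorem one00 : (1 : SL(2, R)) 0 0 = 1 := by simp
theorem one01 : (1 : SL(2, R)) 0 1 = 0 := by simp
theorem one10 : (1 : SL(2, R)) 1 0 = 0 := by simp
theorem one11 : (1 : SL(2, R)) 1 1 = 1 := by simp

theorem det1 (g : SL(2, R)) : g 0 0 * g 1 1 - g 0 1 * g 1 0 = 1 := by
  have h := g.2
  rw [Matrix.det_fin_two] at h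
  exact h

@[simp] theorem dg00 (u : Rˣ) : (dg u) 0 0 = (u : R) := rfl
@[simp] theorem dg01 (u : Rˣ) : (dg u) 0 1 = (0 : R) := rfl
@[simp] theorem dg10 (u : Rˣ) : (dg u) 1 0 = (0 : R) := rfl
@[simp] theorem dg11 (u : Rˣ) : (dg u) 1 1 = ((u⁻¹ : Rˣ) : R) := rfl
@[simp] theorem un00 (b : R) : (un b) 0 0 = (1 : R) := rfl
@[simp] theorem un01 (b : R) : (un b) 0 1 = (b : R) := rfl
@[simp] theorem un10 (b : R) : (un b) 1 0 = (0 : R) := rfl
@[simp] theorem un11 (b : R) : (un b) 1 1 = (1 : R) := rfl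
@[simp] theorem sg00 (u : Rˣ) (g : SL(2, R)) : (sg u g) 0 0 = g 0 0 := rfl
@[simp] theorem sg01 (u : Rˣ) (g : SL(2, R)) : (sg u g) 0 1 = (u : R) * g 0 1 := rfl
@[simp] theorem sg10 (u : Rˣ) (g : SL(2, R)) : (sg u g) 1 0 = ((u⁻¹ : Rˣ) : R) * g 1 0 := rfl
@[simp] theorem sg11 (u : Rˣ) (g : SL(2, R)) : (sg u g) 1 1 = g 1 1 := rfl

theorem dg_one : dg (1 : Rˣ) = 1 := by
  apply ext4 <;> simp

theorem dg_mul (u v : Rˣ) : dg (u * v) = dg u * dg v := by
  apply ext4 <;> simp [mul00, mul01, mul10, mul11, mul_comm]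

theorem dg_inv (u : Rˣ) : (dg u)⁻¹ = dg u⁻¹ := by
  rw [inv_eq_iff_mul_eq_one, ← dg_mul, mul_inv_cancel, dg_one]

theorem un_zero : un (0 : R) = 1 := by
  apply ext4 <;> simp

theorem un_add (a b : R) : un (a + b) = un a * un b := by
  apply ext4 <;> simp [mul00, mul01, mul10, mul11, add_comm]

theorem sg_one (g : SL(2, R)) : sg 1 g = g := by
  apply ext4 <;> simp

theorem sg_of_one (u : Rˣ) : sg u (1 : SL(2, R)) = 1 := by
  apply ext4 <;> simp

theorem sg_sg (u v : Rˣ) (g : SL(2, R)) : sg u (sg v g) = sg (u * v) g := by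
  apply ext4 <;> simp [mul_assoc, mul_comm]

theorem sg_inv_sg (u : Rˣ) (g : SL(2, R)) : sg u⁻¹ (sg u g) = g := by
  rw [sg_sg, inv_mul_cancel, sg_one]

theorem sg_sg_inv (u : Rˣ) (g : SL(2, R)) : sg u (sg u⁻¹ g) = g := by
  rw [sg_sg, mul_inv_cancel, sg_one]

theorem sg_mul (u : Rˣ) (g h : SL(2, R)) : sg u (g * h) = sg u g * sg u h := by
  have hu : (u : R) * ((u⁻¹ : Rˣ) : R) = 1 := u.mul_inv
  apply ext4
  · simp only [sg00, sg01, sg10, mul00]
    linear_combination (-(g 0 1 * h 1 0)) * hu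
  · simp only [sg01, sg00, sg11, mul01]
    ring
  · simp only [sg10, sg00, sg11, mul10]
    ring
  · simp only [sg11, sg01, sg10, mul11]
    linear_combination (-(g 1 0 * h 0 1)) * hu

theorem sg_inv (u : Rˣ) (g : SL(2, R)) : sg u g⁻¹ = (sg u g)⁻¹ := by
  rw [eq_inv_iff_mul_eq_one, ← sg_mul, inv_mul_cancel, sg_of_one]

theorem sg_dg (u v : Rˣ) : sg u (dg v) = (dg v : SL(2, R)) := by
  apply ext4 <;> simp

theorem sg_un (u : Rˣ) (b : R) : sg u (un b) = (un ((u : R) * b) : SL(2, R)) := by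
  apply ext4 <;> simp

/-- `sg u` as a permutation -/
def sgE (u : Rˣ) : SL(2, R) ≃ SL(2, R) := ⟨sg u, sg u⁻¹, sg_inv_sg u, sg_sg_inv u⟩

@[simp] theorem sgE_apply (u : Rˣ) (g : SL(2, R)) : sgE u g = sg u g := rfl

theorem sg_sq (u : Rˣ) (y : SL(2, R)) : sg (u * u) y = dg u * y * dg u⁻¹ := by
  have hu : (u : R) * ((u⁻¹ : Rˣ) : R) = 1 := u.mul_inv
  apply ext4
  · simp only [sg00, mul00, mul01, dg00, dg01, dg10]
    linear_combination (-(y 0 0)) * hu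
  · simp only [sg01, mul00, mul01, dg00, dg01, dg11, inv_inv, Units.val_mul]
    ring
  · simp only [sg10, mul10, mul11, dg00, dg10, dg11, mul_inv, Units.val_mul]
    ring
  · simp only [sg11, mul11, mul10, dg01, dg10, dg11, inv_inv]
    linear_combination (-(y 1 1)) * hu

/-- `dg u * sg v h = sg (u * u * v) h * dg u` -/
theorem dg_mul_sg (u v : Rˣ) (h : SL(2, R)) : dg u * sg v h = sg (u * u * v) h * dg u := by
  rw [← sg_sg, sg_sq, mul_assoc, ← dg_mul, inv_mul_cancel, dg_one, mul_one]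

/-- right invariance of spherical functions -/
theorem sph0_right [Finite R] {φ : SL(2, R) → ℝ} (hφ : Sph0 R φ) (u : Rˣ) (g : SL(2, R)) :
    φ (g * dg u) = φ g := by
  have h := hφ.sph g (dg u)
  have h1 : φ (dg u) = 1 := by
    have := hφ.left u 1
    rw [mul_one] at this
    rw [this, hφ.one]
  have h2 : ∑ᶠ v : Rˣ, φ (g * sg v (dg u)) = (Nat.card Rˣ : ℝ) * φ (g * dg u) := by
    have : Fintype Rˣ := Fintype.ofFinite _
    rw [finsum_eq_sum_of_fintype]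
    simp only [sg_dg, Finset.sum_const, Finset.card_univ, nsmul_eq_mul, Nat.card_eq_fintype_card]
  rw [h2, h1, mul_one] at h
  have hpos : (Nat.card Rˣ : ℝ) ≠ 0 := by
    exact_mod_cast (Nat.card_pos).ne'
  exact mul_left_cancel₀ hpos h

theorem sph_sph0 {φ : SL(2, R) → ℝ} (h : Sph R φ) : Sph0 R φ := ⟨h.one, h.left, h.sig, h.sph⟩

theorem sph_right [Finite R] {φ : SL(2, R) → ℝ} (hφ : Sph R φ) (u : Rˣ) (g : SL(2, R)) :
    φ (g * dg u) = φ g := sph0_right (sph_sph0 hφ) u g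

end ring

section integers

theorem rd_mul (M : ℕ) (g h : SL(2, ℤ)) : rd M (g * h) = rd M g * rd M h := by
  simp [rd]

theorem rd_one (M : ℕ) : rd M 1 = 1 := by
  simp [rd]

theorem rd_inv (M : ℕ) (g : SL(2, ℤ)) : rd M g⁻¹ = (rd M g)⁻¹ := by
  simp [rd]

@[simp] theorem rd_apply (M : ℕ) (g : SL(2, ℤ)) (i j : Fin 2) : (rd M g) i j = ((g i j : ℤ) : ZMod M) := by
  simp [rd]

@[simp] theorem cj00 (y : SL(2, ℤ)) : (cj y) 0 0 = y 0 0 := rfl
@[simp] theorem cj01 (y : SL(2, ℤ)) : (cj y) 0 1 = -y 0 1 := rfl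
@[simp] theorem cj10 (y : SL(2, ℤ)) : (cj y) 1 0 = -y 1 0 := rfl
@[simp] theorem cj11 (y : SL(2, ℤ)) : (cj y) 1 1 = y 1 1 := rfl

theorem rd_cj (M : ℕ) (y : SL(2, ℤ)) : rd M (cj y) = sg (-1) (rd M y) := by
  apply ext4 <;> simp

theorem mem_Gamma0 (Q : ℕ) (g : SL(2, ℤ)) :
    g ∈ CongruenceSubgroup.Gamma0 Q ↔ (Q : ℤ) ∣ g 1 0 := by
  rw [CongruenceSubgroup.Gamma0_mem]
  exact ZMod.intCast_zmod_eq_zero_iff_dvd _ _

/-- left multiplication by `Γ₀(Q)` does not change the class -/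
theorem cls_mul (hCOS : ST_COS) (Q : ℕ) (hQ : 1 ≤ Q) (g y : SL(2, ℤ)) (hg : (Q : ℤ) ∣ g 1 0) :
    cls Q (g * y) = cls Q y := by
  symm
  rw [(hCOS Q hQ).2]
  rw [mul_assoc, mul_inv_cancel, mul_one]
  exact (mem_Gamma0 Q g).2 hg

theorem cls_eq (hCOS : ST_COS) (Q : ℕ) (hQ : 1 ≤ Q) (y y' : SL(2, ℤ)) (h : cls Q y = cls Q y') :
    (Q : ℤ) ∣ (y' * y⁻¹) 1 0 :=
  (mem_Gamma0 Q _).1 (((hCOS Q hQ).2 y y').1 h)

theorem eqc_refl (C : ℤ → ℤ → ℝ) : eqc C C := ⟨0, fun x y _ => by simp⟩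

theorem eqc_symm {C C' : ℤ → ℤ → ℝ} (h : eqc C C') : eqc C' C := by
  obtain ⟨κ, h⟩ := h
  exact ⟨-κ, fun x y hxy => by rw [h x y hxy]; ring⟩

theorem eqc_trans {C C' C'' : ℤ → ℤ → ℝ} (h : eqc C C') (h' : eqc C' C'') : eqc C C'' := by
  obtain ⟨κ, h⟩ := h
  obtain ⟨κ', h'⟩ := h'
  exact ⟨κ' + κ, fun x y hxy => by rw [h x y hxy, h' x y hxy]; ring⟩

theorem eqc_mul (k : ℝ) {C C' : ℤ → ℤ → ℝ} (h : eqc C C') :
    eqc (fun x y => k * C x y) (fun x y => k * C' x y) := by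
  obtain ⟨κ, h⟩ := h
  exact ⟨k * κ, fun x y hxy => by simp only; rw [h x y hxy]; ring⟩

theorem eqc_sum {ι : Type} (s : Finset ι) (k : ι → ℝ) (C C' : ι → ℤ → ℤ → ℝ)
    (h : ∀ i ∈ s, eqc (C i) (C' i)) :
    eqc (fun x y => ∑ i ∈ s, k i * C i x y) (fun x y => ∑ i ∈ s, k i * C' i x y) := by
  classical
  induction s using Finset.induction_on with
  | empty => exact ⟨0, fun x y _ => by simp⟩
  | insert i s hi ih =>
    obtain ⟨κ, h1⟩ := h i (Finset.mem_insert_self i s)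
    obtain ⟨κ', h2⟩ := ih (fun j hj => h j (Finset.mem_insert_of_mem hj))
    refine ⟨k i * κ + κ', fun x y hxy => ?_⟩
    simp only [Finset.sum_insert hi]
    have := h2 x y hxy
    simp only at this
    rw [this, h1 x y hxy]
    ring

/-- points `(x,y) ≠ 0` are mapped to points `≠ 0` by matrices of determinant `≠ 0` -/
theorem ne_zero_of_det {p q r s x y : ℤ} (hdet : p * s - q * r ≠ 0) (h : x ≠ 0 ∨ y ≠ 0) :
    (p * x + q * y ≠ 0 ∨ r * x + s * y ≠ 0) := by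
  by_contra hcon
  push Not at hcon
  obtain ⟨h1, h2⟩ := hcon
  have e1 : (p * s - q * r) * x = 0 := by linear_combination s * h1 - q * h2
  have e2 : (p * s - q * r) * y = 0 := by linear_combination p * h2 - r * h1
  rcases h with h | h
  · exact h ((mul_eq_zero.mp e1).resolve_left hdet)
  · exact h ((mul_eq_zero.mp e2).resolve_left hdet)

theorem ca_one (M : ℕ) (hM : 1 ≤ M) (C : ℤ → ℤ → ℝ) (hC : Hom0 C) : ca M C 1 = C := by
  funext x y
  have h := hC M x y (by exact_mod_cast (by omega : M ≠ 0))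
  rw [← h]
  simp [ca]

end integers

end Lib

end Pool.Agent.Helper96.ME
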