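import Pool.Agent.Helper96.ME.Lib
import Pool.Agent.Helper96.MP.VF

/-!
# MP_bde085_nt, block E: the potentials of a newform
-/

set_option autoImplicit false

namespace Pool.Agent.Helper96.ME

open Pool.Agent.Helper96.MP
open scoped MatrixGroups

theorem ptf_cusp (hFLIM : ST_FLIM) (hTF : ST_TF) (N : ℕ) (a : ℕ → ℤ) (hN : 1 ≤ N)
    (hnf : Newform N a) (l : ℕ) (hl : l.Prime) (hlN : ¬ l ∣ N) :
    (∀ x y : ℤ, (x ≠ 0 ∨ y ≠ 0) →
      ∑ t ∈ Tn l, FC (fun k => (a k : ℂ)) (t.1 * x + t.2.1 * y) (t.2.2 * y) =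
        ((a l : ℤ) : ℂ) * FC (fun k => (a k : ℂ)) x y) ∧
    (∀ x y : ℤ, (x ≠ 0 ∨ y ≠ 0) →
      ∑ t ∈ Tn (l ^ 2), FC (fun k => (a k : ℂ)) (t.1 * x + t.2.1 * y) (t.2.2 * y) =
        ((a l ^ 2 - l : ℤ) : ℂ) * FC (fun k => (a k : ℂ)) x y) := by
  constructor
  · exact vf_hecke_cusp hFLIM N l _ _ hN hl.one_lt.le hnf.cusp
        (vf_TFs hTF N l a hN hl.one_lt.le hnf.cusp (a l) (vf_coef_l N a hnf l hl hlN))
  · have h1 : 1 ≤ l ^ 2 := Nat.one_le_pow _ _ hl.pos
    exact vf_hecke_cusp hFLIM N (l ^ 2) _ _ hN h1 hnf.cusp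
        (vf_TFs hTF N (l ^ 2) a hN h1 hnf.cusp (a l ^ 2 - l) (vf_coef_l2 N a hnf l hl hlN))

/-- the real part of the primitive of a newform is a potential in `PT` -/
theorem pt_re (hFLIM : ST_FLIM) (hTF : ST_TF) (N : ℕ) (a : ℕ → ℤ) (hN : 1 ≤ N)
    (hnf : Newform N a) : PT N a 1 (fun x y => (FC (fun k => (a k : ℂ)) x y).re) := by
  obtain ⟨hlim, hhom, heqv, hper, hconj⟩ := hFLIM N _ hN hnf.cusp
  have hconj' := hconj (by intro k; simp)
  refine ⟨?_, ?_, ?_, ?_⟩
  · intro k p q hk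
    simp only
    rw [hhom k p q hk]
  · intro p q r s hg x y hxy
    simp only
    rw [heqv p q r s hg x y hxy]
    simp
  · refine ⟨0, fun x y _ => ?_⟩
    rw [hconj' x y, Complex.conj_re]
    ring
  · intro l hl hlN _
    obtain ⟨h1, h2⟩ := ptf_cusp hFLIM hTF N a hN hnf l hl hlN
    constructor
    · refine ⟨0, fun x y hxy => ?_⟩
      have := congrArg Complex.re (h1 x y hxy)
      rw [Complex.re_sum] at this
      rw [this, vf_re_mul]
      ring
    · refine ⟨0, fun x y hxy => ?_⟩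
      have := congrArg Complex.re (h2 x y hxy)
      rw [Complex.re_sum] at this
      rw [this, vf_re_mul]
      push_cast
      ring

/-- the imaginary part of the primitive of a newform is a potential in `PT` -/
theorem pt_im (hFLIM : ST_FLIM) (hTF : ST_TF) (N : ℕ) (a : ℕ → ℤ) (hN : 1 ≤ N)
    (hnf : Newform N a) : PT N a (-1) (fun x y => (FC (fun k => (a k : ℂ)) x y).im) := by
  obtain ⟨hlim, hhom, heqv, hper, hconj⟩ := hFLIM N _ hN hnf.cusp
  have hconj' := hconj (by intro k; simp)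
  refine ⟨?_, ?_, ?_, ?_⟩
  · intro k p q hk
    simp only
    rw [hhom k p q hk]
  · intro p q r s hg x y hxy
    simp only
    rw [heqv p q r s hg x y hxy]
    simp
  · refine ⟨0, fun x y _ => ?_⟩
    rw [hconj' x y, Complex.conj_im]
    ring
  · intro l hl hlN _
    obtain ⟨h1, h2⟩ := ptf_cusp hFLIM hTF N a hN hnf l hl hlN
    constructor
    · refine ⟨0, fun x y hxy => ?_⟩
      have := congrArg Complex.im (h1 x y hxy)
      rw [Complex.im_sum] at this
      rw [this, vf_im_mul]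
      ring
    · refine ⟨0, fun x y hxy => ?_⟩
      have := congrArg Complex.im (h2 x y hxy)
      rw [Complex.im_sum] at this
      rw [this, vf_im_mul]
      push_cast
      ring

end Pool.Agent.Helper96.ME
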